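import Pool.Agent.Lib_helper79.Poly.Defs

/-!
Polynomial time many-one reductions and the class NP, for decision problems about tree-represented
data.
-/

set_option autoImplicit false

namespace Pool.Agent.Poly

/-- `P` reduces to `Q` in polynomial time. -/
def Reduces {α β : Type} [Rep α] [Rep β] (P : α → Prop) (Q : β → Prop) : Prop :=
  ∃ f : α → β, PolyTime f ∧ ∀ a, P a ↔ Q (f a)

/-- `P` is in NP: there are a polynomial time test `V` and a polynomial bound such that `P a` holds
if and only if `V (a, w)` holds for some bit string `w` of length at most the bound. -/
def InNP {α : Type} [Rep α] (P : α → Prop) : Prop :=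
  ∃ (d : ℕ) (V : α × List Bool → Bool), PolyTime V ∧
    ∀ a, P a ↔ ∃ w : List Bool, w.length ≤ ((rep a).size + 2) ^ d ∧ V (a, w) = true

/-- Karp's problem EXACT COVER. An instance `(M, S)` consists of a number `M` and a list `S` of
subsets of `{0, …, M - 1}`, each given by its characteristic vector (missing entries are `false`).
The question is whether some subfamily `X` of the sets covers every element exactly once. -/
def ExactCover (I : ℕ × List (List Bool)) : Prop :=
  ∃ X : ℕ → Prop, ∀ c < I.1, ∃! v, v < I.2.length ∧ X v ∧ (I.2.getD v []).getD c false = true

end Pool.Agent.Poly
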