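import Pool.Agent.Lib_helper79.Poly.Defs

set_option autoImplicit false

namespace Pool.Agent.Poly

open Tr

/-! ### Sizes -/

lemma one_le_size (t : Tr) : 1 ≤ size t := by cases t <;> simp [size]

lemma size_hd_le (t : Tr) : size (hd t) ≤ size t := by
  cases t with
  | nil => simp [hd, size]
  | cons a b => simp [hd, size]; omega

lemma size_tl_le (t : Tr) : size (tl t) ≤ size t := by
  cases t with
  | nil => simp [tl, size]
  | cons a b => simp [tl, size]; omega

lemma len_le_size (t : Tr) : len t ≤ size t := by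
  induction t with
  | nil => simp [len]
  | cons a b _ ih => simp [len, size]; omega

lemma pow_bound {n a b : ℕ} (h : a ≤ b) : (n + 2) ^ a ≤ (n + 2) ^ b :=
  Nat.pow_le_pow_right (by omega) h

lemma one_le_pow2 (n a : ℕ) : 1 ≤ (n + 2) ^ a := Nat.one_le_pow _ _ (by omega)

/-- Outputs of functions in `FP` have polynomial size. -/
lemma FP.growth {f : Tr → Tr} (h : FP f) : ∃ d, ∀ x, size (f x) ≤ (size x + 2) ^ d := by
  induction h with
  | id => exact ⟨1, fun x => by simp⟩
  | nil => exact ⟨0, fun x => by simp [size]⟩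
  | @cons f g _ _ ihf ihg =>
    obtain ⟨a, ha⟩ := ihf
    obtain ⟨b, hb⟩ := ihg
    refine ⟨a + b + 1, fun x => ?_⟩
    have h1 := ha x
    have h2 := hb x
    have h3 : (size x + 2) ^ a ≤ (size x + 2) ^ (a + b) := pow_bound (by omega)
    have h4 : (size x + 2) ^ b ≤ (size x + 2) ^ (a + b) := pow_bound (by omega)
    have h5 := one_le_pow2 (size x) (a + b)
    have h6 := one_le_size x
    rw [pow_succ]
    simp only [size]
    nlinarith
  | hd _ ih =>
    obtain ⟨a, ha⟩ := ih
    exact ⟨a, fun x => (size_hd_le _).trans (ha x)⟩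
  | tl _ ih =>
    obtain ⟨a, ha⟩ := ih
    exact ⟨a, fun x => (size_tl_le _).trans (ha x)⟩
  | @branch f g h _ _ _ _ ihg ihh =>
    obtain ⟨a, ha⟩ := ihg
    obtain ⟨b, hb⟩ := ihh
    refine ⟨a + b, fun x => ?_⟩
    have h1 := (ha x).trans (pow_bound (n := size x) (show a ≤ a + b by omega))
    have h2 := (hb x).trans (pow_bound (n := size x) (show b ≤ a + b by omega))
    show size (Tr.branch (f x) (g x) (h x)) ≤ _
    unfold Tr.branch
    cases f x
    · exact h2
    · exact h1
  | @comp f g _ _ ihf ihg =>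
    obtain ⟨a, ha⟩ := ihf
    obtain ⟨b, hb⟩ := ihg
    refine ⟨(b + 1) * a, fun x => ?_⟩
    refine (ha (g x)).trans ?_
    rw [pow_mul]
    apply Nat.pow_le_pow_left
    have h1 := hb x
    have h5 := one_le_pow2 (size x) b
    have h6 := one_le_size x
    rw [pow_succ]
    nlinarith
  | @iter f g h d _ _ _ hd _ _ _ => exact ⟨d, fun x => hd x _ le_rfl⟩

lemma FP.const (t : Tr) : FP fun _ => t := by
  induction t with
  | nil => exact FP.nil
  | cons a b iha ihb => exact FP.cons iha ihb

/-! ### Moving lists -/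

/-- Reverse the first tree onto the second. -/
def revApp : Tr → Tr → Tr
  | nil, b => b
  | cons h t, b => revApp t (cons h b)

lemma size_revApp (a b : Tr) : size (revApp a b) ≤ size a + size b := by
  induction a generalizing b with
  | nil => simp [revApp]
  | cons h t _ ih =>
    have := ih (cons h b)
    simp only [revApp, size] at this ⊢
    omega

lemma iterate_growth {f : Tr → Tr} {c : ℕ} (h : ∀ s, size (f s) ≤ size s + c) (i : ℕ) (s : Tr) :
    size (f^[i] s) ≤ size s + c * i := by
  induction i with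
  | zero => simp
  | succ i ih =>
    rw [Function.iterate_succ_apply']
    refine (h _).trans ?_
    rw [Nat.mul_succ]
    omega

lemma FP.revApp {f g : Tr → Tr} (hf : FP f) (hg : FP g) :
    FP fun x => Pool.Agent.Poly.revApp (f x) (g x) := by
  obtain ⟨a, ha⟩ := hf.growth
  obtain ⟨b, hb⟩ := hg.growth
  set step : Tr → Tr := fun s => Tr.cons (Tr.tl (Tr.hd s))
    (Tr.cons (Tr.hd (Tr.hd s)) (Tr.tl s)) with hstep
  have fstep : FP step :=
    FP.cons (FP.tl (FP.hd FP.id)) (FP.cons (FP.hd (FP.hd FP.id)) (FP.tl FP.id))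
  have gr : ∀ s, size (step s) ≤ size s + 4 := by
    intro s
    cases s with
    | nil => simp [hstep, Tr.hd, Tr.tl, size]
    | cons r acc =>
      cases r with
      | nil => simp [hstep, Tr.hd, Tr.tl, size]; omega
      | cons h t => simp [hstep, Tr.hd, Tr.tl, size]; omega
  have key : ∀ a b : Tr, Tr.tl (step^[len a] (Tr.cons a b)) = Pool.Agent.Poly.revApp a b := by
    intro a
    induction a with
    | nil => intro b; rfl
    | cons h t _ ih =>
      intro b
      rw [Pool.Agent.Poly.revApp, ← ih]
      rfl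
  have : (fun x => Pool.Agent.Poly.revApp (f x) (g x)) =
      fun x => Tr.tl (step^[len (f x)] (Tr.cons (f x) (g x))) := by
    funext x
    rw [key]
  rw [this]
  apply FP.tl
  apply FP.iter (a + b + 3) fstep (FP.cons hf hg) hf
  intro x i hi
  refine (iterate_growth gr i _).trans ?_
  have h1 := ha x
  have h2 := hb x
  have h3 : (size x + 2) ^ a ≤ (size x + 2) ^ (a + b) := pow_bound (by omega)
  have h4 : (size x + 2) ^ b ≤ (size x + 2) ^ (a + b) := pow_bound (by omega)
  have h5 := one_le_pow2 (size x) (a + b)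
  have h6 := one_le_size x
  have h7 := len_le_size (f x)
  have h8 : (size x + 2) ^ (a + b + 3) = (size x + 2) ^ (a + b) * (size x + 2) ^ 3 := pow_add _ _ _
  have h9 : 3 ^ 3 ≤ (size x + 2) ^ 3 := Nat.pow_le_pow_left (by omega) 3
  rw [h8]
  simp only [size]
  have h10 : (size x + 2) ^ (a + b) * 3 ^ 3 ≤ (size x + 2) ^ (a + b) * (size x + 2) ^ 3 :=
    Nat.mul_le_mul_left _ h9
  nlinarith

/-- Fold over a list, prepending the reversed values: the step function. -/
def fstep (g : Tr → Tr) (s : Tr) : Tr :=
  cons (hd s) (cons (tl (hd (tl s))) (revApp (g (cons (hd s) (hd (hd (tl s))))) (tl (tl s))))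

lemma FP.fstep {g : Tr → Tr} (hg : FP g) : FP (fstep g) := by
  unfold Pool.Agent.Poly.fstep
  refine FP.cons (FP.hd FP.id) (FP.cons (FP.tl (FP.hd (FP.tl FP.id))) ?_)
  refine FP.revApp ?_ (FP.tl (FP.tl FP.id))
  exact FP.comp hg (FP.cons (FP.hd FP.id) (FP.hd (FP.hd (FP.tl FP.id))))

/-- Fold over the list `l` with context `c`. -/
def bigFold (g : Tr → Tr) (c l : Tr) : Tr :=
  revApp (tl (tl ((fstep g)^[len l] (cons c (cons l nil))))) nil

lemma FP.bigFold {g c l : Tr → Tr} (hg : FP g) (hc : FP c) (hl : FP l) :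
    FP fun x => bigFold g (c x) (l x) := by
  unfold Pool.Agent.Poly.bigFold
  refine FP.revApp (FP.tl (FP.tl ?_)) FP.nil
  obtain ⟨a, ha⟩ := hc.growth
  obtain ⟨b, hb⟩ := hl.growth
  obtain ⟨k, hk⟩ := hg.growth
  have inv : ∀ (C L : Tr) (i : ℕ), ∃ r acc, (Pool.Agent.Poly.fstep g)^[i] (Tr.cons C (Tr.cons L Tr.nil)) =
      Tr.cons C (Tr.cons r acc) ∧ size r ≤ size L ∧
      size acc ≤ 1 + i * (size C + size L + 3) ^ k := by
    intro C L i
    induction i with
    | zero => exact ⟨L, Tr.nil, rfl, le_rfl, by simp [size]⟩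
    | succ i ih =>
      obtain ⟨r, acc, h1, h2, h3⟩ := ih
      rw [Function.iterate_succ_apply', h1]
      refine ⟨_, _, rfl, ?_, ?_⟩
      · exact (size_tl_le _).trans h2
      · refine (size_revApp _ _).trans ?_
        have h4 := hk (Tr.cons C (Tr.hd r))
        have h5 : (size (Tr.cons C (Tr.hd r)) + 2) ^ k ≤ (size C + size L + 3) ^ k := by
          apply Nat.pow_le_pow_left
          simp only [size]
          have := size_hd_le r
          omega
        rw [Nat.succ_mul]
        have e1 : Tr.hd (Tr.cons C (Tr.cons r acc)) = C := rfl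
        have e2 : Tr.hd (Tr.tl (Tr.cons C (Tr.cons r acc))) = r := rfl
        have e3 : Tr.tl (Tr.tl (Tr.cons C (Tr.cons r acc))) = acc := rfl
        rw [e1, e2, e3]
        omega
  apply FP.iter ((a + b + 3) * k + a + b + 5) hg.fstep (FP.cons hc (FP.cons hl FP.nil)) hl
  intro x i hi
  obtain ⟨r, acc, h1, h2, h3⟩ := inv (c x) (l x) i
  rw [h1]
  have g1 := ha x
  have g2 := hb x
  have g3 : (size x + 2) ^ a ≤ (size x + 2) ^ (a + b) := pow_bound (by omega)
  have g4 : (size x + 2) ^ b ≤ (size x + 2) ^ (a + b) := pow_bound (by omega)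
  have g5 := one_le_pow2 (size x) (a + b)
  have g6 := one_le_size x
  have g7 := len_le_size (l x)
  have g8 : size (c x) + size (l x) + 3 ≤ (size x + 2) ^ (a + b + 3) := by
    have e1 : (size x + 2) ^ (a + b + 3) = (size x + 2) ^ (a + b) * (size x + 2) ^ 3 := pow_add _ _ _
    have e2 : 3 ^ 3 ≤ (size x + 2) ^ 3 := Nat.pow_le_pow_left (by omega) 3
    have e3 : (size x + 2) ^ (a + b) * 3 ^ 3 ≤ (size x + 2) ^ (a + b) * (size x + 2) ^ 3 :=
      Nat.mul_le_mul_left _ e2
    rw [e1]
    nlinarith
  have g9 : (size (c x) + size (l x) + 3) ^ k ≤ (size x + 2) ^ ((a + b + 3) * k) := by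
    rw [pow_mul]
    exact Nat.pow_le_pow_left g8 k
  set P := (size x + 2) ^ ((a + b + 3) * k) with hP
  have hP1 : 1 ≤ P := one_le_pow2 _ _
  set Q := (size x + 2) ^ (a + b) with hQ
  have e1 : (size x + 2) ^ ((a + b + 3) * k + a + b + 5) = P * Q * (size x + 2) ^ 5 := by
    rw [hP, hQ, ← pow_add, ← pow_add]
    congr 1
    ring
  rw [e1]
  have e2 : 3 ^ 5 ≤ (size x + 2) ^ 5 := Nat.pow_le_pow_left (by omega) 5
  have e3 : P * Q * 3 ^ 5 ≤ P * Q * (size x + 2) ^ 5 := Nat.mul_le_mul_left _ e2
  have e4 : i * (size (c x) + size (l x) + 3) ^ k ≤ Q * P :=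
    Nat.mul_le_mul (by omega) g9
  have e5 : Q ≤ P * Q := by nlinarith
  have e6 : 1 ≤ P * Q := Nat.mul_pos hP1 g5
  simp only [size]
  have e7 : Q * P = P * Q := mul_comm _ _
  omega

/-! ### Typed layer -/

variable {α β γ δ : Type} [Rep α] [Rep β] [Rep γ] [Rep δ]

lemma rep_pair (a : α) (b : β) : rep (a, b) = cons (rep a) (rep b) := rfl
lemma rep_nil : rep ([] : List α) = nil := rfl
lemma rep_cons (a : α) (l : List α) : rep (a :: l) = cons (rep a) (rep l) := rfl
lemma rep_zero : rep (0 : ℕ) = nil := rfl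
lemma rep_succ (n : ℕ) : rep (n + 1) = cons nil (rep n) := rfl
lemma rep_true : rep true = cons nil nil := rfl
lemma rep_false : rep false = nil := rfl

lemma len_rep_list (l : List α) : len (rep l) = l.length := by
  induction l with
  | nil => rfl
  | cons a l ih => rw [rep_cons, List.length_cons, ← ih]; rfl

lemma len_rep_nat (n : ℕ) : len (rep n) = n := by
  induction n with
  | zero => rfl
  | succ n ih => rw [rep_succ, len, ih]

lemma revApp_rep (l m : List α) : revApp (rep l) (rep m) = rep (l.reverse ++ m) := by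
  induction l generalizing m with
  | nil => rfl
  | cons a l ih =>
    rw [rep_cons, revApp, ← rep_cons, ih]
    simp

lemma revApp_rep_nat (l m : ℕ) : revApp (rep l) (rep m) = rep (l + m) := by
  induction l generalizing m with
  | zero => rw [rep_zero, revApp, Nat.zero_add]
  | succ l ih =>
    rw [rep_succ, revApp, ← rep_succ, ih]
    congr 1
    omega

@[fun_prop]
lemma PolyTime.id' : PolyTime (fun x : α => x) := ⟨_, FP.id, fun _ => rfl⟩

@[fun_prop]
lemma PolyTime.const (b : β) : PolyTime (fun _ : α => b) := ⟨_, FP.const (rep b), fun _ => rfl⟩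

@[fun_prop]
lemma PolyTime.comp {f : β → γ} {g : α → β} (hf : PolyTime f) (hg : PolyTime g) :
    PolyTime (fun x => f (g x)) := by
  obtain ⟨F, hF, hF'⟩ := hf
  obtain ⟨G, hG, hG'⟩ := hg
  exact ⟨_, FP.comp hF hG, fun a => by rw [hG', hF']⟩

@[fun_prop]
lemma PolyTime.pair {f : α → β} {g : α → γ} (hf : PolyTime f) (hg : PolyTime g) :
    PolyTime (fun x => (f x, g x)) := by
  obtain ⟨F, hF, hF'⟩ := hf
  obtain ⟨G, hG, hG'⟩ := hg
  exact ⟨_, FP.cons hF hG, fun a => by rw [hG', hF', rep_pair]⟩

@[fun_prop]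
lemma PolyTime.fst {f : α → β × γ} (hf : PolyTime f) : PolyTime (fun x => (f x).1) := by
  obtain ⟨F, hF, hF'⟩ := hf
  exact ⟨_, FP.hd hF, fun a => by rw [hF']; rfl⟩

@[fun_prop]
lemma PolyTime.snd {f : α → β × γ} (hf : PolyTime f) : PolyTime (fun x => (f x).2) := by
  obtain ⟨F, hF, hF'⟩ := hf
  exact ⟨_, FP.tl hF, fun a => by rw [hF']; rfl⟩

@[fun_prop]
lemma PolyTime.cond {p : α → Bool} {f g : α → β} (hp : PolyTime p) (hf : PolyTime f)
    (hg : PolyTime g) : PolyTime (fun x => cond (p x) (f x) (g x)) := by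
  obtain ⟨P, hP, hP'⟩ := hp
  obtain ⟨F, hF, hF'⟩ := hf
  obtain ⟨G, hG, hG'⟩ := hg
  refine ⟨_, FP.branch hP hF hG, fun a => ?_⟩
  rw [hP', hF', hG']
  show Tr.branch (rep (p a)) (rep (f a)) (rep (g a)) = rep (bif p a then f a else g a)
  cases p a <;> rfl

lemma PolyTime.ite {p : α → Prop} [DecidablePred p] {f g : α → β}
    (hp : PolyTime (fun x => decide (p x))) (hf : PolyTime f)
    (hg : PolyTime g) : PolyTime (fun x => if p x then f x else g x) := by
  have : (fun x => if p x then f x else g x) = fun x => bif decide (p x) then f x else g x := by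
    funext x
    by_cases h : p x <;> simp [h]
  rw [this]
  exact hp.cond hf hg

@[fun_prop]
lemma PolyTime.lcons {f : α → β} {g : α → List β} (hf : PolyTime f) (hg : PolyTime g) :
    PolyTime (fun x => f x :: g x) := by
  obtain ⟨F, hF, hF'⟩ := hf
  obtain ⟨G, hG, hG'⟩ := hg
  exact ⟨_, FP.cons hF hG, fun a => by rw [hG', hF', rep_cons]⟩

lemma PolyTime.reverse {f : α → List β} (hf : PolyTime f) : PolyTime (fun x => (f x).reverse) := by
  obtain ⟨F, hF, hF'⟩ := hf
  refine ⟨_, FP.revApp hF FP.nil, fun a => ?_⟩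
  rw [hF', ← rep_nil (α := β), revApp_rep, List.append_nil]

@[fun_prop]
lemma PolyTime.append {f g : α → List β} (hf : PolyTime f) (hg : PolyTime g) :
    PolyTime (fun x => f x ++ g x) := by
  obtain ⟨F, hF, hF'⟩ := hf.reverse
  obtain ⟨G, hG, hG'⟩ := hg
  refine ⟨_, FP.revApp hF hG, fun a => ?_⟩
  rw [hF', hG', revApp_rep, List.reverse_reverse]

@[fun_prop]
lemma PolyTime.add {f g : α → ℕ} (hf : PolyTime f) (hg : PolyTime g) :
    PolyTime (fun x => f x + g x) := by
  obtain ⟨F, hF, hF'⟩ := hf
  obtain ⟨G, hG, hG'⟩ := hg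
  refine ⟨_, FP.revApp hF hG, fun a => ?_⟩
  rw [hF', hG', revApp_rep_nat]

lemma PolyTime.flatMap {f : α → List β} {g : α → β → List γ} (hf : PolyTime f)
    (hg : PolyTime (fun p : α × β => g p.1 p.2)) : PolyTime (fun x => (f x).flatMap (g x)) := by
  obtain ⟨F, hF, hF'⟩ := hf
  obtain ⟨G, hG, hG'⟩ := hg
  refine ⟨_, FP.bigFold hG FP.id hF, fun a => ?_⟩
  rw [hF']
  have key : ∀ (l : List β) (acc : List γ), (fstep G)^[l.length] (cons (rep a) (cons (rep l) (rep acc)))
      = cons (rep a) (cons nil (rep ((l.flatMap (g a)).reverse ++ acc))) := by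
    intro l
    induction l with
    | nil => intro acc; rfl
    | cons b l ih =>
      intro acc
      rw [List.length_cons, Function.iterate_succ_apply]
      have : fstep G (cons (rep a) (cons (rep (b :: l)) (rep acc))) =
          cons (rep a) (cons (rep l) (rep ((g a b).reverse ++ acc))) := by
        unfold fstep
        rw [rep_cons]
        simp only [hd, tl]
        rw [← rep_pair, hG', revApp_rep]
      rw [this, ih]
      simp
  unfold bigFold
  rw [len_rep_list, ← rep_nil (α := γ), key]
  simp only [tl]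
  rw [revApp_rep]
  simp

lemma PolyTime.map {f : α → List β} {g : α → β → γ} (hf : PolyTime f)
    (hg : PolyTime (fun p : α × β => g p.1 p.2)) : PolyTime (fun x => (f x).map (g x)) := by
  have : (fun x => (f x).map (g x)) = fun x => (f x).flatMap fun b => [g x b] := by
    funext x
    rw [List.map_eq_flatMap]
  rw [this]
  exact hf.flatMap (hg.lcons (PolyTime.const []))

lemma PolyTime.filter {f : α → List β} {g : α → β → Bool} (hf : PolyTime f)
    (hg : PolyTime (fun p : α × β => g p.1 p.2)) : PolyTime (fun x => (f x).filter (g x)) := by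
  have : (fun x => (f x).filter (g x)) = fun x => (f x).flatMap fun b => bif g x b then [b] else [] := by
    funext x
    induction f x with
    | nil => rfl
    | cons b l ih =>
      rw [List.filter_cons, List.flatMap_cons, ih]
      cases g x b <;> rfl
  rw [this]
  apply hf.flatMap
  fun_prop

lemma FP.drop {f g : Tr → Tr} (hf : FP f) (hg : FP g) : FP fun x => Tr.tl^[len (g x)] (f x) := by
  obtain ⟨a, ha⟩ := hf.growth
  apply FP.iter a (FP.tl FP.id) hf hg
  intro x i _
  refine ((iterate_growth (f := Tr.tl) (c := 0) (fun s => size_tl_le s) i _).trans ?_)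
  simpa using ha x

@[fun_prop]
lemma PolyTime.sub {f g : α → ℕ} (hf : PolyTime f) (hg : PolyTime g) :
    PolyTime (fun x => f x - g x) := by
  obtain ⟨F, hF, hF'⟩ := hf
  obtain ⟨G, hG, hG'⟩ := hg
  refine ⟨_, FP.drop hF hG, fun a => ?_⟩
  rw [hF', hG', len_rep_nat]
  have : ∀ k m : ℕ, Tr.tl^[k] (rep m) = rep (m - k) := by
    intro k
    induction k with
    | zero => intro m; rfl
    | succ k ih =>
      intro m
      rw [Function.iterate_succ_apply]
      cases m with
      | zero =>
        have : Tr.tl (rep (0 : ℕ)) = rep (0 : ℕ) := rfl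
        rw [this, ih]
        congr 1
        omega
      | succ m =>
        rw [rep_succ, Tr.tl, ih]
        congr 1
        omega
  exact this _ _

@[fun_prop]
lemma PolyTime.drop {f : α → List β} {g : α → ℕ} (hf : PolyTime f) (hg : PolyTime g) :
    PolyTime (fun x => (f x).drop (g x)) := by
  obtain ⟨F, hF, hF'⟩ := hf
  obtain ⟨G, hG, hG'⟩ := hg
  refine ⟨_, FP.drop hF hG, fun a => ?_⟩
  rw [hF', hG', len_rep_nat]
  have : ∀ (k : ℕ) (l : List β), Tr.tl^[k] (rep l) = rep (l.drop k) := by
    intro k
    induction k with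
    | zero => intro l; rfl
    | succ k ih =>
      intro l
      rw [Function.iterate_succ_apply]
      cases l with
      | nil =>
        have : Tr.tl (rep ([] : List β)) = rep ([] : List β) := rfl
        rw [this, ih]
        simp
      | cons b l =>
        rw [rep_cons, Tr.tl, ih]
        simp
  exact this _ _

@[fun_prop]
lemma PolyTime.headD {f : α → List β} {g : α → β} (hf : PolyTime f) (hg : PolyTime g) :
    PolyTime (fun x => (f x).headD (g x)) := by
  obtain ⟨F, hF, hF'⟩ := hf
  obtain ⟨G, hG, hG'⟩ := hg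
  refine ⟨_, FP.branch hF (FP.hd hF) hG, fun a => ?_⟩
  rw [hF', hG']
  show Tr.branch (rep (f a)) (Tr.hd (rep (f a))) (rep (g a)) = rep ((f a).headD (g a))
  cases f a <;> rfl

@[fun_prop]
lemma PolyTime.getD {f : α → List β} {i : α → ℕ} {g : α → β} (hf : PolyTime f) (hi : PolyTime i)
    (hg : PolyTime g) : PolyTime (fun x => (f x).getD (i x) (g x)) := by
  have : (fun x => (f x).getD (i x) (g x)) = fun x => ((f x).drop (i x)).headD (g x) := by
    funext x
    rw [List.headD_eq_head?_getD, List.head?_drop, List.getD_eq_getElem?_getD]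
  rw [this]
  fun_prop

@[fun_prop]
lemma PolyTime.length {f : α → List β} (hf : PolyTime f) : PolyTime (fun x => (f x).length) := by
  obtain ⟨F, hF, hF'⟩ := hf.map (g := fun _ _ => (0 : ℕ)) (PolyTime.const 0)
  refine ⟨F, hF, fun a => ?_⟩
  rw [hF']
  have : ∀ l : List β, rep (l.map fun _ => (0 : ℕ)) = rep l.length := by
    intro l
    induction l with
    | nil => rfl
    | cons b l ih => rw [List.map_cons, rep_cons, ih, List.length_cons, rep_succ, rep_zero]
  exact this _

lemma rep_replicate_zero (n : ℕ) : rep (List.replicate n (0 : ℕ)) = rep n := by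
  induction n with
  | zero => rfl
  | succ n ih => rw [List.replicate_succ, rep_cons, ih, rep_succ, rep_zero]

/-- A number as a list of zeros. -/
lemma PolyTime.zeros {f : α → ℕ} (hf : PolyTime f) :
    PolyTime (fun x => List.replicate (f x) (0 : ℕ)) := by
  obtain ⟨F, hF, hF'⟩ := hf
  exact ⟨F, hF, fun a => by rw [hF', rep_replicate_zero]⟩

@[fun_prop]
lemma PolyTime.mul {f g : α → ℕ} (hf : PolyTime f) (hg : PolyTime g) :
    PolyTime (fun x => f x * g x) := by
  have : (fun x => f x * g x) = fun x => ((List.replicate (f x) (0 : ℕ)).flatMap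
      fun _ => List.replicate (g x) (0 : ℕ)).length := by
    funext x
    simp [List.length_flatMap]
  rw [this]
  apply PolyTime.length
  apply hf.zeros.flatMap
  exact PolyTime.zeros (PolyTime.comp hg (PolyTime.fst PolyTime.id'))

@[fun_prop]
lemma PolyTime.replicate {f : α → ℕ} {g : α → β} (hf : PolyTime f) (hg : PolyTime g) :
    PolyTime (fun x => List.replicate (f x) (g x)) := by
  have : (fun x => List.replicate (f x) (g x)) = fun x => (List.replicate (f x) (0 : ℕ)).map
      fun _ => g x := by
    funext x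
    simp
  rw [this]
  apply hf.zeros.map
  fun_prop

@[fun_prop]
lemma PolyTime.range {f : α → ℕ} (hf : PolyTime f) : PolyTime (fun x => List.range (f x)) := by
  obtain ⟨F, hF, hF'⟩ := hf
  obtain ⟨a, ha⟩ := hF.growth
  set step : Tr → Tr := fun s => Tr.cons (Tr.tl (Tr.hd s)) (Tr.cons (Tr.tl (Tr.hd s)) (Tr.tl s))
    with hstep
  have fstep : FP step := FP.cons (FP.tl (FP.hd FP.id)) (FP.cons (FP.tl (FP.hd FP.id)) (FP.tl FP.id))
  have inv : ∀ (L : Tr) (i : ℕ), ∃ r acc, step^[i] (Tr.cons L Tr.nil) = Tr.cons r acc ∧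
      size r ≤ size L ∧ size acc ≤ 1 + i * (size L + 1) := by
    intro L i
    induction i with
    | zero => exact ⟨L, Tr.nil, rfl, le_rfl, by simp [size]⟩
    | succ i ih =>
      obtain ⟨r, acc, h1, h2, h3⟩ := ih
      rw [Function.iterate_succ_apply', h1]
      refine ⟨_, _, rfl, ?_, ?_⟩
      · exact (size_tl_le _).trans h2
      · have e1 : Tr.hd (Tr.cons r acc) = r := rfl
        have e2 : Tr.tl (Tr.cons r acc) = acc := rfl
        rw [e1, e2]
        have := size_tl_le r
        simp only [size]
        rw [Nat.succ_mul]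
        omega
  refine ⟨fun x => Tr.tl (step^[len (F x)] (Tr.cons (F x) Tr.nil)), FP.tl ?_, fun x => ?_⟩
  · apply FP.iter (2 * a + 3) fstep (FP.cons hF FP.nil) hF
    intro x i hi
    obtain ⟨r, acc, h1, h2, h3⟩ := inv (F x) i
    rw [h1]
    have g1 := ha x
    have g2 := len_le_size (F x)
    have g3 := one_le_size x
    have e1 : (size x + 2) ^ (2 * a + 3) = (size x + 2) ^ a * (size x + 2) ^ a * (size x + 2) ^ 3 := by
      rw [← pow_add, ← pow_add]
      congr 1
      ring
    have e2 : 3 ^ 3 ≤ (size x + 2) ^ 3 := Nat.pow_le_pow_left (by omega) 3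
    have e3 : (size x + 2) ^ a * (size x + 2) ^ a * 3 ^ 3 ≤
      (size x + 2) ^ a * (size x + 2) ^ a * (size x + 2) ^ 3 := Nat.mul_le_mul_left _ e2
    have e4 := one_le_pow2 (size x) a
    set Q := (size x + 2) ^ a with hQ
    rw [e1]
    simp only [size]
    have e5 : i * (size (F x) + 1) ≤ Q * (Q + 1) := Nat.mul_le_mul (by omega) (by omega)
    nlinarith
  · show (step^[(F (rep x)).len] ((F (rep x)).cons Tr.nil)).tl = rep (List.range (f x))
    rw [hF', len_rep_nat]
    have key : ∀ (n : ℕ) (l : List ℕ), step^[n] (Tr.cons (rep n) (rep l)) =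
        Tr.cons (rep 0) (rep (List.range n ++ l)) := by
      intro n
      induction n with
      | zero => intro l; rfl
      | succ n ih =>
        intro l
        rw [Function.iterate_succ_apply]
        have : step (Tr.cons (rep (n + 1)) (rep l)) = Tr.cons (rep n) (rep (n :: l)) := rfl
        rw [this, ih, List.range_succ]
        simp
    rw [← rep_nil (α := ℕ), key]
    simp only [Tr.tl, List.append_nil]

/-! ### Tests -/

lemma PolyTime.isPos {f : α → ℕ} (hf : PolyTime f) : PolyTime (fun x => decide (0 < f x)) := by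
  obtain ⟨F, hF, hF'⟩ := hf
  refine ⟨_, FP.branch hF (FP.const (rep true)) (FP.const (rep false)), fun a => ?_⟩
  rw [hF']
  show Tr.branch (rep (f a)) (rep true) (rep false) = rep (decide (0 < f a))
  cases h : f a with
  | zero => rfl
  | succ n => simp [rep_succ, Tr.branch]

@[fun_prop]
lemma PolyTime.not {f : α → Bool} (hf : PolyTime f) : PolyTime (fun x => !(f x)) := by
  have : (fun x => !(f x)) = fun x => bif f x then false else true := by
    funext x
    cases f x <;> rfl
  rw [this]
  fun_prop

@[fun_prop]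
lemma PolyTime.and {f g : α → Bool} (hf : PolyTime f) (hg : PolyTime g) :
    PolyTime (fun x => f x && g x) := by
  have : (fun x => f x && g x) = fun x => bif f x then g x else false := by
    funext x
    cases f x <;> rfl
  rw [this]
  fun_prop

@[fun_prop]
lemma PolyTime.or {f g : α → Bool} (hf : PolyTime f) (hg : PolyTime g) :
    PolyTime (fun x => f x || g x) := by
  have : (fun x => f x || g x) = fun x => bif f x then true else g x := by
    funext x
    cases f x <;> rfl
  rw [this]
  fun_prop

lemma PolyTime.lt {f g : α → ℕ} (hf : PolyTime f) (hg : PolyTime g) :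
    PolyTime (fun x => decide (f x < g x)) := by
  have : (fun x => decide (f x < g x)) = fun x => decide (0 < g x - f x) := by
    funext x
    rw [decide_eq_decide]
    omega
  rw [this]
  exact (hg.sub hf).isPos

lemma PolyTime.le {f g : α → ℕ} (hf : PolyTime f) (hg : PolyTime g) :
    PolyTime (fun x => decide (f x ≤ g x)) := by
  have : (fun x => decide (f x ≤ g x)) = fun x => !(decide (g x < f x)) := by
    funext x
    rw [← decide_not, decide_eq_decide]
    omega
  rw [this]
  exact (hg.lt hf).not

lemma PolyTime.natEq {f g : α → ℕ} (hf : PolyTime f) (hg : PolyTime g) :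
    PolyTime (fun x => decide (f x = g x)) := by
  have : (fun x => decide (f x = g x)) = fun x => decide (f x ≤ g x) && decide (g x ≤ f x) := by
    funext x
    rw [← Bool.decide_and, decide_eq_decide]
    omega
  rw [this]
  exact (hf.le hg).and (hg.le hf)

lemma PolyTime.dAnd {p q : α → Prop} [DecidablePred p] [DecidablePred q]
    (hp : PolyTime (fun x => decide (p x))) (hq : PolyTime (fun x => decide (q x))) :
    PolyTime (fun x => decide (p x ∧ q x)) := by
  have : (fun x => decide (p x ∧ q x)) = fun x => decide (p x) && decide (q x) := by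
    funext x
    rw [Bool.decide_and]
  rw [this]
  exact hp.and hq

lemma PolyTime.dOr {p q : α → Prop} [DecidablePred p] [DecidablePred q]
    (hp : PolyTime (fun x => decide (p x))) (hq : PolyTime (fun x => decide (q x))) :
    PolyTime (fun x => decide (p x ∨ q x)) := by
  have : (fun x => decide (p x ∨ q x)) = fun x => decide (p x) || decide (q x) := by
    funext x
    rw [Bool.decide_or]
  rw [this]
  exact hp.or hq

lemma PolyTime.dEqTrue {f : α → Bool} (hf : PolyTime f) : PolyTime (fun x => decide (f x = true)) := by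
  have : (fun x => decide (f x = true)) = f := by
    funext x
    simp
  rw [this]
  exact hf

end Pool.Agent.Poly
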