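import Mathlib

/-!
A function algebra of polynomial time computable functions. Data are finite binary trees; a
function on other data types is treated through a representation by trees.
-/

set_option autoImplicit false

namespace Pool.Agent.Poly

/-- Finite binary trees. -/
inductive Tr : Type
  | nil : Tr
  | cons (a b : Tr) : Tr

namespace Tr

/-- Number of nodes. -/
def size : Tr → ℕ
  | nil => 1
  | cons a b => size a + size b + 1

/-- Left subtree (`nil` for `nil`). -/
def hd : Tr → Tr
  | nil => nil
  | cons a _ => a

/-- Right subtree (`nil` for `nil`). -/
def tl : Tr → Tr
  | nil => nil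
  | cons _ b => b

/-- Length of the right spine: the number of entries of the tree read as a list. -/
def len : Tr → ℕ
  | nil => 0
  | cons _ b => len b + 1

/-- Case distinction: `b` if the first tree is not `nil`, and `c` otherwise. -/
def branch (t b c : Tr) : Tr :=
  match t with
  | nil => c
  | cons _ _ => b

end Tr

open Tr

/-- `FP f`: the function `f` on trees is obtained from the identity and the constant `nil` by
pairing, taking subtrees, case distinction, composition, and iteration `x ↦ f^[n] (g x)`, where the
number `n` of rounds is the length of `h x` and all intermediate results have size bounded by a fixed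
polynomial in the size of `x`. Every such function is computable in polynomial time. -/
inductive FP : (Tr → Tr) → Prop
  | id : FP fun x => x
  | nil : FP fun _ => nil
  | cons {f g : Tr → Tr} : FP f → FP g → FP fun x => cons (f x) (g x)
  | hd {f : Tr → Tr} : FP f → FP fun x => hd (f x)
  | tl {f : Tr → Tr} : FP f → FP fun x => tl (f x)
  | branch {f g h : Tr → Tr} : FP f → FP g → FP h → FP fun x => branch (f x) (g x) (h x)
  | comp {f g : Tr → Tr} : FP f → FP g → FP fun x => f (g x)
  | iter {f g h : Tr → Tr} (d : ℕ) : FP f → FP g → FP h →
      (∀ x, ∀ i ≤ len (h x), size (f^[i] (g x)) ≤ (size x + 2) ^ d) →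
      FP fun x => f^[len (h x)] (g x)

/-- A representation of the elements of `α` by trees. -/
class Rep (α : Type) where
  /-- the tree representing an element -/
  rep : α → Tr

export Rep (rep)

/-- A tree represents itself. -/
instance instRepTr : Rep Tr := ⟨fun t => t⟩

/-- The truth values are represented by `nil` (false) and `cons nil nil` (true). -/
instance instRepBool : Rep Bool := ⟨fun b => if b then cons nil nil else nil⟩

/-- Numbers are represented in unary. -/
instance instRepNat : Rep ℕ := ⟨fun n => Nat.rec nil (fun _ t => cons nil t) n⟩

/-- A pair is represented by the pair of the representations. -/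
instance instRepProd {α β : Type} [Rep α] [Rep β] : Rep (α × β) := ⟨fun p => cons (rep p.1) (rep p.2)⟩

/-- Lists are represented along the right spine. -/
instance instRepList {α : Type} [Rep α] : Rep (List α) :=
  ⟨fun l => List.rec nil (fun a _ t => cons (rep a) t) l⟩

/-- `PolyTime f`: some function in `FP` computes `f` on representations. -/
@[fun_prop]
def PolyTime {α β : Type} [Rep α] [Rep β] (f : α → β) : Prop :=
  ∃ F : Tr → Tr, FP F ∧ ∀ a, F (rep a) = rep (f a)

end Pool.Agent.Poly
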